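import Mathlib

namespace Pool.Agent.Results.MP_62401a_nt.FivePerfect

/-- The alternating divisor sum function `σ̃`: it is multiplicative with
`σ̃(p^r) = p^r - p^(r-1) + p^(r-2) - ... + (-1)^r`, that is
`σ̃(n) = ∏_{p^r ∥ n} ∑_{j=0}^{r} (-1)^j p^(r-j)`. -/
def altSigma (n : ℕ) : ℤ :=
  ∏ p ∈ n.primeFactors, ∑ j ∈ Finset.range (n.factorization p + 1),
    (-1 : ℤ) ^ j * (p : ℤ) ^ (n.factorization p - j)

theorem altSigma_eq (n : ℕ) :
    altSigma n = n.factorization.prod fun p r =>
      ∑ j ∈ Finset.range (r + 1), (-1 : ℤ) ^ j * (p : ℤ) ^ (r - j) := by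
  rfl

theorem altSigma_mul {m n : ℕ} (h : Nat.Coprime m n) :
    altSigma (m * n) = altSigma m * altSigma n := by
  rw [altSigma_eq, altSigma_eq, altSigma_eq, Nat.factorization_mul_of_coprime h]
  exact Finsupp.prod_add_index_of_disjoint
    (by simpa using h.disjoint_primeFactors) _

theorem altSigma_prime_pow {p : ℕ} (hp : p.Prime) (r : ℕ) :
    altSigma (p ^ r) = ∑ j ∈ Finset.range (r + 1), (-1 : ℤ) ^ j * (p : ℤ) ^ (r - j) := by
  rw [altSigma_eq, hp.factorization_pow]
  rw [Finsupp.prod_single_index]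
  simp

theorem altSigma_one : altSigma 1 = 1 := by
  simp [altSigma]

/-- the alternating sum by recursion on `r` -/
def alt (p : ℤ) : ℕ → ℤ
  | 0 => 1
  | r + 1 => p ^ (r + 1) - alt p r

theorem alt_eq (p : ℤ) (r : ℕ) :
    ∑ j ∈ Finset.range (r + 1), (-1 : ℤ) ^ j * p ^ (r - j) = alt p r := by
  induction r with
  | zero => simp [alt]
  | succ r ih =>
    rw [Finset.sum_range_succ', alt, ← ih, sub_eq_neg_add, ← Finset.sum_neg_distrib]
    congr 1
    · refine Finset.sum_congr rfl fun j _ => ?_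
      rw [show r + 1 - (j + 1) = r - j by omega]
      ring
    · simp

/-- the value of the product of the prime powers in a list -/
def val : List (ℕ × ℕ) → ℕ
  | [] => 1
  | x :: l => x.1 ^ x.2 * val l

/-- the value of `σ̃` according to the list -/
def sig : List (ℕ × ℕ) → ℤ
  | [] => 1
  | x :: l => alt x.1 x.2 * sig l

theorem coprime_val {p : ℕ} (hp : p.Prime) (r : ℕ) (l : List (ℕ × ℕ))
    (hl : ∀ x ∈ l, x.1.Prime) (hne : ∀ x ∈ l, p < x.1) : Nat.Coprime (p ^ r) (val l) := by
  induction l with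
  | nil => exact Nat.coprime_one_right _
  | cons x l ih =>
    rw [val]
    refine Nat.Coprime.mul_right ?_ (ih (fun y hy => hl y (List.mem_cons_of_mem _ hy))
      fun y hy => hne y (List.mem_cons_of_mem _ hy))
    exact Nat.Coprime.pow _ _ ((Nat.coprime_primes hp (hl x List.mem_cons_self)).2
      (ne_of_lt (hne x List.mem_cons_self)))

theorem altSigma_val (l : List (ℕ × ℕ)) (hl : ∀ x ∈ l, x.1.Prime)
    (hs : l.Pairwise fun x y => x.1 < y.1) : altSigma (val l) = sig l := by
  induction l with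
  | nil => exact altSigma_one
  | cons x l ih =>
    rw [List.pairwise_cons] at hs
    rw [val, sig, altSigma_mul (coprime_val (hl x List.mem_cons_self) _ _
      (fun y hy => hl y (List.mem_cons_of_mem _ hy)) hs.1),
      altSigma_prime_pow (hl x List.mem_cons_self), alt_eq,
      ih (fun y hy => hl y (List.mem_cons_of_mem _ hy)) hs.2]

/-- the factorization of the witness, a number with 168 digits -/
def wit : List (ℕ × ℕ) :=
  [(2, 65), (3, 19), (5, 15), (7, 14), (11, 9), (13, 6), (17, 2), (19, 2), (23, 3), (29, 3),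
    (31, 3), (37, 1), (41, 1), (43, 1), (53, 1), (59, 1), (61, 2), (67, 1), (73, 1), (79, 1),
    (83, 1), (89, 2), (179, 1), (191, 1), (293, 1), (313, 1), (359, 1), (373, 1), (421, 1),
    (523, 1), (683, 1), (1181, 1), (3221, 1), (11489, 1), (13421, 1), (20857, 1), (22079, 1),
    (599479, 1), (6568801, 1)]

theorem wit_prime : ∀ x ∈ wit, x.1.Prime := by
  intro x hx
  simp only [wit, List.mem_cons, List.not_mem_nil, or_false] at hx
  rcases hx with rfl | rfl | rfl | rfl | rfl | rfl | rfl | rfl | rfl | rfl | rfl | rfl | rfl |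
    rfl | rfl | rfl | rfl | rfl | rfl | rfl | rfl | rfl | rfl | rfl | rfl | rfl | rfl | rfl |
    rfl | rfl | rfl | rfl | rfl | rfl | rfl | rfl | rfl | rfl | rfl <;> norm_num

theorem wit_sorted : wit.Pairwise fun x y => x.1 < y.1 := by
  unfold wit
  repeat
    refine List.Pairwise.cons ?_ ?_
    · simp
  exact List.Pairwise.nil

/-- There is a `σ̃`-`5`-perfect number: a positive integer `n` with `5 σ̃(n) = n`. -/
theorem result : ∃ n : ℕ, 0 < n ∧ (5 : ℤ) * altSigma n = (n : ℤ) := by
  refine ⟨val wit, by decide +kernel, ?_⟩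
  rw [altSigma_val wit wit_prime wit_sorted]
  decide +kernel

end Pool.Agent.Results.MP_62401a_nt.FivePerfect
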